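import Pool.Agent.helper23.CU.Spec

open Finset Filter Topology

namespace CU

theorem AL_flip {d n : ℕ} (σ : Conf d n) : flipc (flipc σ) = σ := by
  funext x
  show (!(!σ x)) = σ x
  exact Bool.not_not _

theorem AL_ind01 {d n : ℕ} (A : Set (Conf d n)) (η : Conf d n) :
    0 ≤ A.indicator (fun _ => (1 : ℝ)) η ∧ A.indicator (fun _ => (1 : ℝ)) η ≤ 1 := by
  by_cases h : η ∈ A
  · rw [Set.indicator_of_mem h]; exact ⟨zero_le_one, le_rfl⟩
  · rw [Set.indicator_of_notMem h]; exact ⟨le_rfl, zero_le_one⟩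

theorem AL_compl {d n : ℕ} (A : Set (Conf d n)) (η : Conf d n) :
    A.indicator (fun _ => (1 : ℝ)) η + Aᶜ.indicator (fun _ => (1 : ℝ)) η = 1 := by
  by_cases h : η ∈ A
  · have h' : η ∉ Aᶜ := fun h' => h' h
    rw [Set.indicator_of_mem h, Set.indicator_of_notMem h']; norm_num
  · have h' : η ∈ Aᶜ := h
    rw [Set.indicator_of_notMem h, Set.indicator_of_mem h']; norm_num

theorem AL (hL1 : L1_stmt) (hBT : BT_stmt) (hREV : REV_stmt) (hLIN : LIN_stmt) (hFLP : FLP_stmt) :
    AL_stmt := by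
  intro d n _ hn β hβ A s ⟨hs, hA1, hA2, hA3, hA4⟩
  set I : Conf d n → ℝ := A.indicator fun _ => 1 with hI
  set J : Conf d n → ℝ := Aᶜ.indicator fun _ => 1 with hJ
  set F : Conf d n → ℝ := (Pf β)^[s] I with hF
  set G : Conf d n → ℝ := (Pf β)^[s] J with hG
  have hI01 : ∀ η, 0 ≤ I η ∧ I η ≤ 1 := AL_ind01 A
  have hIJ : ∀ η, I η + J η = 1 := AL_compl A
  have hFG : ∀ σ, F σ + G σ = 1 := by
    intro σ
    have h1 := congrFun (hLIN d n β I J 1 1 s).1 σ
    simp only [one_mul] at h1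
    rw [show (fun σ => I σ + J σ) = fun _ => (1 : ℝ) from funext hIJ,
      (hREV d n β I J s).2 1] at h1
    exact h1.symm
  set a := gs β s (plus : Conf d n) with ha
  -- monotonicity of `g_s`
  have hmono : ∀ σ η : Conf d n, σ ≤ η → gs β s σ ≤ gs β s η := by
    intro σ η h
    have h1 := hL1 d n hn β hβ s (fun _ => 0) (fun _ => ⟨le_rfl, zero_le_one⟩) σ η h
    have h2 := abs_nonneg ((Pf β)^[s] (fun _ => 0) η - (Pf β)^[s] (fun _ => 0) σ)
    linarith
  have hlow : ∀ σ : Conf d n, -a ≤ gs β s σ := by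
    intro σ
    have h1 := (hFLP d n β I 0).2.2 s (plus : Conf d n)
    rw [← ha] at h1
    rw [← h1]
    apply hmono
    intro x
    show (!(true : Bool)) ≤ σ x
    exact Bool.false_le _
  have hosc : ∀ σ, |F plus - F σ| ≤ a := by
    intro σ
    have h1 := hL1 d n hn β hβ s I hI01 σ plus (fun x => Bool.le_true _)
    have h2 := hlow σ
    rw [← ha] at h1
    linarith
  set π := PrE β A with hπ
  have hπ' : Ex β I = π := rfl
  -- lower bound on `A`
  have hBT' : Ex β (fun σ => I σ * G σ) ≤ s * (1 - 2 * π) := hBT d n β A hA1 hA2 s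
  have e1 : Ex β (fun σ => I σ * F σ) = π - Ex β (fun σ => I σ * G σ) := by
    have h1 := (hLIN d n β I (fun σ => I σ * G σ) 1 (-1) 0).2.2.1
    rw [one_mul, hπ'] at h1
    have h2 : (fun σ => I σ * F σ) = fun σ => 1 * I σ + -1 * (I σ * G σ) := by
      funext σ
      have := hFG σ
      rw [show F σ = 1 - G σ by linarith]; ring
    rw [h2, h1]; ring
  -- the flip
  let K : Conf d n → ℝ := fun σ => I (flipc σ)
  have hK0 : ∀ σ, 0 ≤ K σ := fun σ => (hI01 _).1
  have hKJ : ∀ σ, K σ ≤ J σ := by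
    intro σ
    by_cases h : flipc σ ∈ A
    · have h1 : σ ∉ A := by
        have := hA1 _ h
        rwa [AL_flip] at this
      have h2 : σ ∈ Aᶜ := h1
      show I (flipc σ) ≤ J σ
      rw [hJ, Set.indicator_of_mem h2]
      exact (hI01 _).2
    · show A.indicator (fun _ => (1 : ℝ)) (flipc σ) ≤ _
      rw [Set.indicator_of_notMem h]
      exact (AL_ind01 Aᶜ σ).1
  have hKπ : Ex β K = π := (hFLP d n β I 0).2.1
  have hF0 : ∀ σ, 0 ≤ F σ := by
    intro σ
    have h1 := (hLIN d n β (fun _ => 0) I 1 1 s).2.1 (fun η => (hI01 η).1) σ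
    rw [(hREV d n β I J s).2 0] at h1
    exact h1
  have e2 : Ex β (fun σ => K σ * F σ) ≤ s * (1 - 2 * π) := by
    have h1 := (hLIN d n β (fun σ => K σ * F σ) (fun σ => J σ * F σ) 1 1 0).2.2.2.1
      (fun σ => mul_le_mul_of_nonneg_right (hKJ σ) (hF0 σ))
    have h2 := (hREV d n β J I s).1
    have h3 : (fun σ : Conf d n => (Pf β)^[s] J σ * I σ) = fun σ => I σ * G σ := by
      funext σ; rw [mul_comm]
    rw [h3] at h2
    exact h1.trans (h2.le.trans hBT')
  -- comparison
  have u1 : Ex β (fun σ => I σ * F σ) ≤ (F plus + a) * π := by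
    have h1 := (hLIN d n β (fun σ => I σ * F σ) (fun σ => (F plus + a) * I σ + 0 * I σ) 1 1 0).2.2.2.1
      (fun σ => by
        have h2 := abs_le.mp (hosc σ)
        have h3 := mul_le_mul_of_nonneg_left (show F σ ≤ F plus + a by linarith [h2.1]) (hI01 σ).1
        linarith)
    rw [(hLIN d n β I I (F plus + a) 0 0).2.2.1, hπ'] at h1
    linarith
  have u2 : (F plus - a) * π ≤ Ex β (fun σ => K σ * F σ) := by
    have h1 := (hLIN d n β (fun σ => (F plus - a) * K σ + 0 * K σ) (fun σ => K σ * F σ) 1 1 0).2.2.2.1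
      (fun σ => by
        have h2 := abs_le.mp (hosc σ)
        have h3 := mul_le_mul_of_nonneg_left (show F plus - a ≤ F σ by linarith [h2.2]) (hK0 σ)
        linarith)
    rw [(hLIN d n β K K (F plus - a) 0 0).2.2.1, hKπ] at h1
    linarith
  have hs' : (2 : ℝ) ≤ s := by exact_mod_cast hs
  have hπ49 : 49 / 100 ≤ π := by
    by_contra hc
    push Not at hc
    have h1 : (2 : ℝ) * (1 - 2 * π) ≤ s * (1 - 2 * π) :=
      mul_le_mul_of_nonneg_right hs' (by linarith)
    linarith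
  by_contra hc
  push Not at hc
  have h5 : π - 2 * (s * (1 - 2 * π)) ≤ 2 * a * π := by linarith
  have h6 : 2 * a * π ≤ 90 / 100 * π := mul_le_mul_of_nonneg_right (by linarith) (by linarith)
  linarith

end CU
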