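import Pool.Agent.helper23.CU.Spec

open Finset Filter Topology

namespace CU

theorem PO_upd_add_self {d n : ℕ} (x : Site d n) (i : Fin d) (t : ZMod n) :
    Function.update x i t + ev i = Function.update x i (t + 1) := by
  funext k
  rw [Pi.add_apply]
  unfold ev
  by_cases h : k = i
  · subst h; rw [Function.update_self, Function.update_self, Pi.single_eq_same]
  · rw [Function.update_of_ne h, Function.update_of_ne h, Pi.single_eq_of_ne h, add_zero]

theorem PO_upd_add_ne {d n : ℕ} (x : Site d n) (i j : Fin d) (hij : i ≠ j) (t : ZMod n) :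
    Function.update x i t + ev j = Function.update (x + ev j) i t := by
  funext k
  rw [Pi.add_apply]
  unfold ev
  by_cases h : k = i
  · subst h; rw [Function.update_self, Function.update_self, Pi.single_eq_of_ne hij, add_zero]
  · rw [Function.update_of_ne h, Function.update_of_ne h, Pi.add_apply]

theorem PO_add_self {d n : ℕ} (x : Site d n) (i : Fin d) : (x + ev i : Site d n) i = x i + 1 := by
  rw [Pi.add_apply]; unfold ev; rw [Pi.single_eq_same]

theorem PO_add_ne {d n : ℕ} (x : Site d n) (i j : Fin d) (hij : i ≠ j) : (x + ev j : Site d n) i = x i := by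
  rw [Pi.add_apply]; unfold ev; rw [Pi.single_eq_of_ne hij, add_zero]

/-- constancy along a line -/
theorem PO_line {d n : ℕ} [NeZero n] {α : Type} (f : Site d n → α) (x : Site d n) (i : Fin d)
    (h : ∀ t : ZMod n, f (Function.update x i t + ev i) = f (Function.update x i t)) (t : ZMod n) :
    f (Function.update x i t) = f x := by
  have key : ∀ j : ℕ, f (Function.update x i (x i + (j : ZMod n))) = f x := by
    intro j
    induction j with
    | zero => rw [Nat.cast_zero, add_zero, Function.update_eq_self]
    | succ j ih =>
      rw [Nat.cast_succ, ← add_assoc, ← PO_upd_add_self, h, ih]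
  have h1 := key (t - x i).val
  rwa [ZMod.natCast_zmod_val, add_sub_cancel] at h1

/-- a coordinate far away -/
theorem PO_far {n r : ℕ} [NeZero n] (hn : 2 * r + 5 ≤ n) (a : ZMod n) :
    ((a + ((r + 2 : ℕ) : ZMod n)) - a).valMinAbs.natAbs = r + 2 := by
  rw [add_sub_cancel_left]
  rw [ZMod.valMinAbs_natCast_of_le_half (by omega)]
  exact Int.natAbs_natCast _

theorem PO_char2 (a b : ZMod 2) : a - b = a + b := by
  revert a b; decide

theorem PO_self2 (a : ZMod 2) : a + a = 0 := by
  revert a; decide

open Classical in
/-- the cochain -/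
noncomputable def PO_chi {d n : ℕ} (K : Finset (Edge d n)) (x : Site d n) (i : Fin d) : ZMod 2 :=
  if (x, i) ∈ K then 1 else 0

theorem PO_chi_zero {d n : ℕ} {K : Finset (Edge d n)} {x : Site d n} {i : Fin d} (h : (x, i) ∉ K) :
    PO_chi K x i = 0 := by
  unfold PO_chi; rw [if_neg h]

theorem PO_closed {d n : ℕ} {K : Finset (Edge d n)} (hK : Closed K) (x : Site d n) (i j : Fin d)
    (hij : i ≠ j) :
    PO_chi K x i + PO_chi K (x + ev j) i = PO_chi K (x + ev i) j + PO_chi K x j := by
  have h := hK x i j hij
  unfold PO_chi
  have key : ∀ a b c e : ZMod 2, a + b + c + e = 0 → a + c = b + e := by decide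
  exact key _ _ _ _ (by convert h)

/-- the sum over a line does not depend on the line -/
theorem PO_S {d n : ℕ} [NeZero n] {K : Finset (Edge d n)} (hK : Closed K) (x : Site d n) (i j : Fin d)
    (hij : i ≠ j) :
    ∑ t : ZMod n, PO_chi K (Function.update (x + ev j) i t) i =
      ∑ t : ZMod n, PO_chi K (Function.update x i t) i := by
  have h1 : ∀ t : ZMod n, PO_chi K (Function.update x i t) i + PO_chi K (Function.update (x + ev j) i t) i =
      PO_chi K (Function.update x i (t + 1)) j + PO_chi K (Function.update x i t) j := by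
    intro t
    rw [← PO_upd_add_ne x i j hij, ← PO_upd_add_self]
    exact PO_closed hK _ i j hij
  have h2 := Finset.sum_congr (rfl : (univ : Finset (ZMod n)) = univ) fun t _ => h1 t
  rw [Finset.sum_add_distrib, Finset.sum_add_distrib] at h2
  have h3 : ∑ t : ZMod n, PO_chi K (Function.update x i (t + 1)) j =
      ∑ t : ZMod n, PO_chi K (Function.update x i t) j :=
    Equiv.sum_comp (Equiv.addRight (1 : ZMod n)) fun t => PO_chi K (Function.update x i t) j
  rw [h3, PO_self2] at h2
  have key : ∀ a b : ZMod 2, a + b = 0 → b = a := by decide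
  exact key _ _ h2

/-- the potential -/
noncomputable def PO_tau {d n : ℕ} (K : Finset (Edge d n)) (i : Fin d) (c : ZMod n) (x : Site d n) :
    ZMod 2 :=
  ∑ j ∈ range (x i - c).val, PO_chi K (Function.update x i (c + (j : ZMod n))) i

theorem PO : PO_stmt := by
  intro d n r _ hd hn K hKne hK hnear
  obtain ⟨e₀, he₀⟩ := hKne
  let i0 : Fin d := ⟨0, by omega⟩
  let i1 : Fin d := ⟨1, by omega⟩
  have h01 : i0 ≠ i1 := by
    intro h
    have := congrArg Fin.val h
    simp [i0, i1] at this
  set c : ZMod n := e₀.1 i0 + ((r + 2 : ℕ) : ZMod n) with hc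
  -- membership criterion
  have hnot : ∀ e ∈ K, ∀ (y : Site d n) (i k : Fin d), r < (y k - e.1 k).valMinAbs.natAbs → (y, i) ∉ K := by
    intro e he y i k h1 h2
    have := hnear e he (y, i) h2 k
    exact absurd h1 (not_lt.mpr this)
  -- the line sums vanish
  have hS : ∀ x : Site d n, ∑ t : ZMod n, PO_chi K (Function.update x i0 t) i0 = 0 := by
    intro x
    have h1 := PO_line (fun x : Site d n => ∑ t : ZMod n, PO_chi K (Function.update x i0 t) i0) x i1
      (fun t => PO_S hK _ i0 i1 h01) (e₀.1 i1 + ((r + 2 : ℕ) : ZMod n))
    rw [← h1]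
    refine Finset.sum_eq_zero fun t _ => PO_chi_zero ?_
    apply hnot e₀ he₀ _ _ i1
    rw [Function.update_of_ne h01.symm, Function.update_self, PO_far hn]
    omega
  have hcast : ∀ x : Site d n, c + (((x i0 - c).val : ℕ) : ZMod n) = x i0 := by
    intro x
    rw [ZMod.natCast_zmod_val, add_sub_cancel]
  have hpot : IsPot K (PO_tau K i0 c) := by
    intro x i
    show PO_tau K i0 c (x + ev i) - PO_tau K i0 c x = _
    have hchi : PO_chi K x i = if (x, i) ∈ K then 1 else 0 := by unfold PO_chi; congr
    rw [← hchi]
    by_cases hi : i = i0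
    · subst hi
      have hupd : ∀ t, Function.update (x + ev i0) i0 t = Function.update x i0 t := by
        intro t
        funext k
        by_cases hk : k = i0
        · subst hk; rw [Function.update_self, Function.update_self]
        · rw [Function.update_of_ne hk, Function.update_of_ne hk, PO_add_ne _ _ _ hk]
      have hx : PO_chi K (Function.update x i0 (c + (((x i0 - c).val : ℕ) : ZMod n))) i0 = PO_chi K x i0 := by
        rw [hcast, Function.update_eq_self]
      unfold PO_tau
      simp only [hupd]
      rw [PO_add_self]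
      by_cases hlt : (x i0 - c).val + 1 < n
      · have h1 : (x i0 + 1 - c).val = (x i0 - c).val + 1 := by
          have h2 : x i0 + 1 - c = (((x i0 - c).val + 1 : ℕ) : ZMod n) := by
            rw [Nat.cast_succ, ZMod.natCast_zmod_val]; ring
          rw [h2, ZMod.val_natCast, Nat.mod_eq_of_lt hlt]
        rw [h1, Finset.sum_range_succ, hx]
        ring
      · have h0 := ZMod.val_lt (x i0 - c)
        have h1 : (x i0 - c).val + 1 = n := by omega
        have h2 : x i0 + 1 - c = 0 := by
          have h3 : x i0 + 1 - c = (((x i0 - c).val + 1 : ℕ) : ZMod n) := by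
            rw [Nat.cast_succ, ZMod.natCast_zmod_val]; ring
          rw [h3, h1, ZMod.natCast_self]
        rw [h2, ZMod.val_zero, Finset.sum_range_zero]
        -- the full line
        have h3 : ∑ j ∈ range n, PO_chi K (Function.update x i0 (c + (j : ZMod n))) i0 = 0 := by
          have h4 : ∑ j ∈ range n, PO_chi K (Function.update x i0 (c + (j : ZMod n))) i0 =
              ∑ t : ZMod n, PO_chi K (Function.update x i0 (c + t)) i0 := by
            refine Finset.sum_bij (fun j _ => (j : ZMod n)) (fun _ _ => Finset.mem_univ _) ?_ ?_ ?_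
            · intro a ha b hb hab
              rw [Finset.mem_range] at ha hb
              have := congrArg ZMod.val hab
              rwa [ZMod.val_natCast, ZMod.val_natCast, Nat.mod_eq_of_lt ha, Nat.mod_eq_of_lt hb] at this
            · intro t _
              exact ⟨t.val, Finset.mem_range.mpr (ZMod.val_lt t), ZMod.natCast_zmod_val t⟩
            · intro j _; rfl
          rw [h4]
          have h6 := Equiv.sum_comp (Equiv.addLeft c) fun t => PO_chi K (Function.update x i0 t) i0
          rw [hS x] at h6
          exact h6
        have h5 : range n = range ((x i0 - c).val + 1) := by rw [h1]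
        rw [h5, Finset.sum_range_succ, hx] at h3
        have key : ∀ a b : ZMod 2, a + b = 0 → 0 - a = b := by decide
        exact key _ _ h3
    · have hi' : i0 ≠ i := fun h => hi h.symm
      unfold PO_tau
      rw [PO_add_ne _ _ _ hi', PO_char2, ← Finset.sum_add_distrib]
      have h1 : ∀ j : ℕ, PO_chi K (Function.update (x + ev i) i0 (c + (j : ZMod n))) i0 +
          PO_chi K (Function.update x i0 (c + (j : ZMod n))) i0 =
          PO_chi K (Function.update x i0 (c + ((j + 1 : ℕ) : ZMod n))) i -
            PO_chi K (Function.update x i0 (c + (j : ZMod n))) i := by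
        intro j
        rw [← PO_upd_add_ne _ _ _ hi', add_comm, PO_closed hK _ _ _ hi', PO_upd_add_self, PO_char2,
          Nat.cast_succ, add_assoc]
      rw [Finset.sum_congr rfl fun j _ => h1 j]
      rw [Finset.sum_range_sub (fun j : ℕ => PO_chi K (Function.update x i0 (c + (j : ZMod n))) i)]
      rw [hcast, Function.update_eq_self, Nat.cast_zero, add_zero]
      rw [PO_chi_zero (hnot e₀ he₀ (Function.update x i0 c) i i0 ?_), sub_zero]
      rw [Function.update_self, hc, PO_far hn]
      omega
  refine ⟨PO_tau K i0 c, hpot, ?_⟩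
  -- support
  have hsupp : ∀ e ∈ K, ∀ x : Site d n, ∀ k, k ≠ i0 → r < (x k - e.1 k).valMinAbs.natAbs →
      PO_tau K i0 c x = 0 := by
    intro e he x k hk h
    unfold PO_tau
    refine Finset.sum_eq_zero fun j _ => PO_chi_zero (hnot e he _ _ k ?_)
    rwa [Function.update_of_ne hk]
  intro e he x hx
  unfold Near at hx
  push Not at hx
  obtain ⟨k, hk⟩ := hx
  by_cases hk0 : k = i0
  · subst hk0
    have h1 : PO_tau K i0 c (Function.update x i1 (e.1 i1 + ((r + 2 : ℕ) : ZMod n))) = PO_tau K i0 c x := by
      apply PO_line
      intro t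
      have h2 := hpot (Function.update x i1 t) i1
      rw [if_neg (hnot e he _ _ i0 _)] at h2
      · exact sub_eq_zero.mp h2
      · rw [Function.update_of_ne h01]
        omega
    rw [← h1]
    apply hsupp e he _ i1 h01.symm
    rw [Function.update_self, PO_far hn]
    omega
  · exact hsupp e he x k hk0 (by omega)

end CU
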